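import Pool.Agent.Helper89.Vol.Goals

/-! # MP_cd13d2_co : an adapted frame (packet FRM) -/

set_option autoImplicit false

namespace Pool.Agent.Helper35.Vol.PkFRM

open MeasureTheory Set Pool.Agent.Helper86.Poly Pool.Agent.Helper89.Vol

/-- the matrix of `L` -/
noncomputable def mat (L : E 3 ≃ₗᵢ[ℝ] E 3) : Matrix (Fin 3) (Fin 3) ℝ :=
  Matrix.of fun i j => L (EuclideanSpace.single j (1 : ℝ)) i

theorem mat_apply (L : E 3 ≃ₗᵢ[ℝ] E 3) (x : E 3) (i : Fin 3) :
    L x i = x 0 * mat L i 0 + x 1 * mat L i 1 + x 2 * mat L i 2 := by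
  have h : x = x 0 • EuclideanSpace.single (0 : Fin 3) (1 : ℝ) +
      x 1 • EuclideanSpace.single (1 : Fin 3) (1 : ℝ) +
      x 2 • EuclideanSpace.single (2 : Fin 3) (1 : ℝ) := by
    ext j
    fin_cases j <;> simp
  conv_lhs => rw [h]
  rw [map_add, map_add, map_smul, map_smul, map_smul]
  simp [mat]

theorem mat_mul (L : E 3 ≃ₗᵢ[ℝ] E 3) : (mat L).transpose * mat L = 1 := by
  ext j k
  rw [Matrix.mul_apply]
  have h := L.inner_map_map (EuclideanSpace.single j (1 : ℝ)) (EuclideanSpace.single k (1 : ℝ))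
  have h2 : inner ℝ (L (EuclideanSpace.single j (1 : ℝ))) (L (EuclideanSpace.single k (1 : ℝ))) =
      ∑ i, mat L i j * mat L i k := by
    rw [PiLp.inner_apply]
    refine Finset.sum_congr rfl fun i _ => ?_
    simp [mat, mul_comm]
  rw [h2] at h
  simp only [Matrix.transpose_apply]
  rw [h, EuclideanSpace.inner_single_left]
  simp [Matrix.one_apply]

theorem det_mat (L : E 3 ≃ₗᵢ[ℝ] E 3) : (mat L).det = 1 ∨ (mat L).det = -1 := by
  have h := congrArg Matrix.det (mat_mul L)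
  rw [Matrix.det_mul, Matrix.det_transpose, Matrix.det_one] at h
  exact mul_self_eq_one_iff.1 h

theorem br_map (L : E 3 ≃ₗᵢ[ℝ] E 3) (p q r t : E 3) :
    br (L p) (L q) (L r) (L t) = (mat L).det * br p q r t := by
  have h : !![L q 0 - L p 0, L q 1 - L p 1, L q 2 - L p 2;
      L r 0 - L p 0, L r 1 - L p 1, L r 2 - L p 2;
      L t 0 - L p 0, L t 1 - L p 1, L t 2 - L p 2] =
      !![q 0 - p 0, q 1 - p 1, q 2 - p 2; r 0 - p 0, r 1 - p 1, r 2 - p 2;
        t 0 - p 0, t 1 - p 1, t 2 - p 2] * (mat L).transpose := by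
    ext i j
    fin_cases i <;> fin_cases j <;>
      simp [Matrix.mul_apply, Fin.sum_univ_three, mat_apply L] <;> ring
  rw [br, br, h, Matrix.det_mul, Matrix.det_transpose, mul_comm]

/-- a sign -/
theorem sgn (a : ℝ) : ∃ g : ℝ ≃ₗᵢ[ℝ] ℝ, g a = |a| := by
  rcases le_total 0 a with h | h
  · exact ⟨LinearIsometryEquiv.refl ℝ ℝ, by rw [abs_of_nonneg h]; rfl⟩
  · exact ⟨LinearIsometryEquiv.neg ℝ, by rw [abs_of_nonpos h]; rfl⟩

theorem thm : Pool.Agent.Helper89.Vol.G_FRM := by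
  intro e n
  have hd : Module.finrank ℝ (E 3) = Fintype.card (Fin 3) := by simp
  let c : OrthonormalBasis (Fin 3) ℝ (E 3) :=
    InnerProductSpace.gramSchmidtOrthonormalBasis hd ![e, n, 0]
  have c1 : c.repr e 1 = 0 := InnerProductSpace.gramSchmidtOrthonormalBasis_inv_triangular' hd
    ![e, n, 0] (i := 0) (j := 1) (by decide)
  have c2 : c.repr e 2 = 0 := InnerProductSpace.gramSchmidtOrthonormalBasis_inv_triangular' hd
    ![e, n, 0] (i := 0) (j := 2) (by decide)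
  have c3 : c.repr n 2 = 0 := InnerProductSpace.gramSchmidtOrthonormalBasis_inv_triangular' hd
    ![e, n, 0] (i := 1) (j := 2) (by decide)
  obtain ⟨g0, h0⟩ := sgn (c.repr n 1)
  obtain ⟨g2, h2⟩ := sgn (c.repr e 0)
  let g : Fin 3 → (ℝ ≃ₗᵢ[ℝ] ℝ) := ![g0, LinearIsometryEquiv.refl ℝ ℝ, g2]
  let L : E 3 ≃ₗᵢ[ℝ] E 3 := (c.reindex (finRotate 3).symm).repr.trans
    (LinearIsometryEquiv.piLpCongrRight 2 g)
  have hL : ∀ (x : E 3) (i : Fin 3), L x i = g i (c.repr x (finRotate 3 i)) := by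
    intro x i
    show (LinearIsometryEquiv.piLpCongrRight 2 g ((c.reindex (finRotate 3).symm).repr x)) i = _
    rw [LinearIsometryEquiv.piLpCongrRight_apply]
    show g i ((c.reindex (finRotate 3).symm).repr x i) = _
    rw [OrthonormalBasis.repr_reindex]
    rfl
  have r0 : finRotate 3 0 = 1 := by decide
  have r1 : finRotate 3 1 = 2 := by decide
  have r2 : finRotate 3 2 = 0 := by decide
  refine ⟨L, (mat L).det, det_mat L, br_map L, ?_, ?_, ?_, ?_, ?_⟩
  · rw [hL, r0, c1, map_zero]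
  · rw [hL, r1, c2, map_zero]
  · rw [hL, r2]
    show g2 (c.repr e 0) = _
    rw [h2]
    have h3 : ‖e‖ = ‖c.repr e‖ := (c.repr.norm_map e).symm
    rw [h3, EuclideanSpace.norm_eq, Fin.sum_univ_three, c1, c2]
    simp [Real.sqrt_sq_eq_abs]
  · rw [hL, r1, c3, map_zero]
  · rw [hL, r0]
    show 0 ≤ g0 (c.repr n 1)
    rw [h0]
    exact abs_nonneg _

end Pool.Agent.Helper35.Vol.PkFRM
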